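import Pool.Agent.H.MP_656320_nt.VB.Def

/-!
# Sign changes
-/

namespace Pool.Agent.H.MP_656320_nt.SC

open Finset Pool.Agent.H.MP_656320_nt Pool.Agent.H.MP_656320_nt.VB

/-- The positions of the sign changes: `a n` and the last nonzero value before it have different signs. -/
def Chg (a : ℕ → ℝ) : Set ℕ :=
  {n | ∃ m, 1 ≤ m ∧ m < n ∧ a m * a n < 0 ∧ ∀ j, m < j → j < n → a j = 0}

/-- Between two values of different signs there is a sign change. -/
theorem exists_chg {a : ℕ → ℝ} {u v : ℕ} (hu : 1 ≤ u) (huv : u < v) (h : a u * a v < 0) :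
    ∃ n ∈ Chg a, u < n ∧ n ≤ v := by
  classical
  induction v using Nat.strong_induction_on with
  | _ v ih =>
    have hau : a u ≠ 0 := by
      intro h1
      rw [h1, zero_mul] at h
      exact lt_irrefl _ h
    set s : Finset ℕ := (Finset.Ico u v).filter fun j => a j ≠ 0 with hs
    have hne : s.Nonempty := ⟨u, by
      rw [hs, Finset.mem_filter, Finset.mem_Ico]
      exact ⟨⟨le_rfl, huv⟩, hau⟩⟩
    have hm := s.max'_mem hne
    set m := s.max' hne with hmd
    rw [hs, Finset.mem_filter, Finset.mem_Ico] at hm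
    obtain ⟨⟨hm1, hm2⟩, hm3⟩ := hm
    have hz : ∀ j, m < j → j < v → a j = 0 := by
      intro j hj1 hj2
      by_contra hj3
      have h4 : j ∈ s := by
        rw [hs, Finset.mem_filter, Finset.mem_Ico]
        exact ⟨⟨by omega, hj2⟩, hj3⟩
      have h5 := s.le_max' j h4
      omega
    rcases lt_or_ge (a m * a v) 0 with h1 | h1
    · exact ⟨v, ⟨m, by omega, hm2, h1, hz⟩, huv, le_rfl⟩
    · have hav : a v ≠ 0 := by
        intro h2
        rw [h2, mul_zero] at h
        exact lt_irrefl _ h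
      have h2 : 0 < a m * a v := lt_of_le_of_ne h1 (mul_ne_zero hm3 hav).symm
      have h3 : a u * a m < 0 := by
        by_contra h4
        have h5 : 0 ≤ a u * a m := not_lt.1 h4
        have h6 : 0 ≤ (a u * a m) * (a m * a v) := mul_nonneg h5 h2.le
        have h7 : (a u * a m) * (a m * a v) = (a u * a v) * (a m * a m) := by ring
        have h8 : 0 < a m * a m := mul_self_pos.2 hm3
        rw [h7] at h6
        have h9 : (a u * a v) * (a m * a m) < 0 := mul_neg_of_neg_of_pos h h8
        exact absurd h6 (not_le.2 h9)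
      have h4 : u < m := by
        rcases Nat.lt_or_ge u m with h5 | h5
        · exact h5
        · have h6 : m = u := by omega
          rw [h6] at h3
          exact absurd h3 (not_lt.2 (mul_self_nonneg _))
      obtain ⟨n, hn, hn1, hn2⟩ := ih m hm2 h4 h3
      exact ⟨n, hn, hn1, by omega⟩

/-- Counting by blocks: for every `i` in `I` there is a sign change in one of the intervals
`(m r ^ 2 * (i * H), m r ^ 2 * ((i + 1) * H)]`, `r ∈ R`. -/
theorem count_blocks {ι : Type} (R : Finset ι) {m : ι → ℕ} {M H : ℕ} (hH : 1 ≤ H)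
    (hm : ∀ r ∈ R, 1 ≤ m r ∧ m r ≤ M) (C : Set ℕ) (I : Finset ℕ) {J : ℕ} (hJ : ∀ i ∈ I, i < J)
    (hI : ∀ i ∈ I, ∃ r ∈ R, ∃ n ∈ C, m r ^ 2 * (i * H) < n ∧ n ≤ m r ^ 2 * ((i + 1) * H)) :
    I.card ≤ R.card * cnt C (M ^ 2 * (H * J)) := by
  classical
  rcases I.eq_empty_or_nonempty with hIe | ⟨i0, hi0⟩
  · rw [hIe, Finset.card_empty]
    exact Nat.zero_le _
  haveI : Nonempty ι := ⟨(hI i0 hi0).choose⟩
  choose! r hr n hn h1 h2 using hI
  have hfin := cnt_fin C (M ^ 2 * (H * J))
  have hcard : cnt C (M ^ 2 * (H * J)) = hfin.toFinset.card := by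
    rw [cnt, Set.ncard_eq_toFinset_card _ hfin]
  rw [hcard, ← Finset.card_product]
  refine Finset.card_le_card_of_injOn (fun i => (r i, n i)) ?_ ?_
  · intro i hi
    have hi' : i ∈ I := hi
    have hM := hm (r i) (hr i hi')
    have hiJ := hJ i hi'
    refine Finset.mem_coe.2 (Finset.mem_product.2 ⟨hr i hi', ?_⟩)
    rw [Set.Finite.mem_toFinset]
    refine ⟨?_, ?_, hn i hi'⟩
    · have h3 := h1 i hi'
      show 1 ≤ n i
      omega
    · have h3 := h2 i hi'
      have h4 : m (r i) ^ 2 * ((i + 1) * H) ≤ M ^ 2 * (H * J) := by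
        refine Nat.mul_le_mul (Nat.pow_le_pow_left hM.2 2) ?_
        rw [Nat.mul_comm H J]
        exact Nat.mul_le_mul_right H (by omega)
      exact h3.trans h4
  · intro i hi i' hi' he
    have hi1 : i ∈ I := hi
    have hi2 : i' ∈ I := hi'
    have e1 : r i = r i' := (Prod.mk.inj he).1
    have e2 : n i = n i' := (Prod.mk.inj he).2
    have hM := hm (r i) (hr i hi1)
    have hpos : 0 < m (r i) ^ 2 := Nat.pow_pos (by omega)
    have a1 := h1 i hi1
    have a2 := h2 i hi1
    have b1 := h1 i' hi2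
    have b2 := h2 i' hi2
    rw [← e1, ← e2] at b1 b2
    have c1 : i * H < (i' + 1) * H := Nat.lt_of_mul_lt_mul_left (a1.trans_le b2)
    have c2 : i' * H < (i + 1) * H := Nat.lt_of_mul_lt_mul_left (b1.trans_le a2)
    have d1 : i < i' + 1 := Nat.lt_of_mul_lt_mul_right c1
    have d2 : i' < i + 1 := Nat.lt_of_mul_lt_mul_right c2
    omega

end Pool.Agent.H.MP_656320_nt.SC
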