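import Pool.Agent.H.MP_656320_nt.VB.Cp
import Pool.Agent.H.MP_656320_nt.SC.Sa

/-!
# Rich blocks
-/

namespace Pool.Agent.H.MP_656320_nt.SC

open Finset Pool.Agent.H.MP_656320_nt Pool.Agent.H.MP_656320_nt.VB

/-- The blocks with many nonzero terms. -/
theorem rich {f : ℕ → ℝ} (hf : ∀ n, 0 ≤ f n ∧ f n ≤ 1) {δ : ℝ} {H J : ℕ} (hH : 1 ≤ H)
    (h : δ * ((H * J : ℕ) : ℝ) ≤ ∑ n ∈ Ioc 0 (H * J), f n) :
    δ / 2 * J ≤ (((range J).filter fun i =>
      δ / 2 * H ≤ ∑ n ∈ Ioc (i * H) ((i + 1) * H), f n).card : ℝ) := by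
  by_cases hδ : δ < 0
  · have h1 : (0 : ℝ) ≤ J := Nat.cast_nonneg J
    have h2 : δ / 2 * J ≤ 0 := mul_nonpos_of_nonpos_of_nonneg (by linarith) h1
    exact h2.trans (Nat.cast_nonneg _)
  push Not at hδ
  have hHp : (0 : ℝ) < H := by exact_mod_cast hH
  have hsplit : ∀ J : ℕ, ∑ n ∈ Ioc 0 (H * J), f n =
      ∑ i ∈ range J, ∑ n ∈ Ioc (i * H) ((i + 1) * H), f n := by
    intro J
    induction J with
    | zero => simp
    | succ J ih =>
      rw [Finset.sum_range_succ, ← ih]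
      have h1 := Finset.sum_Ioc_consecutive f (Nat.zero_le (H * J))
        (show H * J ≤ H * (J + 1) from Nat.mul_le_mul_left H (Nat.le_succ J))
      rw [← h1, mul_comm J H, mul_comm (J + 1) H]
  have hub : ∀ i : ℕ, ∑ n ∈ Ioc (i * H) ((i + 1) * H), f n ≤ H := by
    intro i
    have h1 : ∑ n ∈ Ioc (i * H) ((i + 1) * H), f n ≤ (Ioc (i * H) ((i + 1) * H)).card • (1 : ℝ) :=
      Finset.sum_le_card_nsmul _ _ _ fun n _ => (hf n).2
    have h2 : (i + 1) * H - i * H = H := by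
      rw [add_mul, one_mul]
      omega
    rw [Nat.card_Ioc, h2, nsmul_eq_mul, mul_one] at h1
    exact h1
  rw [hsplit J, ← Finset.sum_filter_add_sum_filter_not (range J)
    (fun i => δ / 2 * H ≤ ∑ n ∈ Ioc (i * H) ((i + 1) * H), f n)] at h
  have h1 : ∑ i ∈ (range J).filter (fun i => δ / 2 * H ≤ ∑ n ∈ Ioc (i * H) ((i + 1) * H), f n),
      ∑ n ∈ Ioc (i * H) ((i + 1) * H), f n ≤
      (((range J).filter fun i =>
        δ / 2 * H ≤ ∑ n ∈ Ioc (i * H) ((i + 1) * H), f n).card : ℝ) * H := by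
    have := Finset.sum_le_card_nsmul ((range J).filter (fun i =>
      δ / 2 * H ≤ ∑ n ∈ Ioc (i * H) ((i + 1) * H), f n))
      (fun i => ∑ n ∈ Ioc (i * H) ((i + 1) * H), f n) (H : ℝ) fun i _ => hub i
    rwa [nsmul_eq_mul] at this
  have h2 : ∑ i ∈ (range J).filter
      (fun i => ¬ δ / 2 * H ≤ ∑ n ∈ Ioc (i * H) ((i + 1) * H), f n),
      ∑ n ∈ Ioc (i * H) ((i + 1) * H), f n ≤ (J : ℝ) * (δ / 2 * H) := by
    have h3 := Finset.sum_le_card_nsmul ((range J).filter (fun i =>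
      ¬ δ / 2 * H ≤ ∑ n ∈ Ioc (i * H) ((i + 1) * H), f n))
      (fun i => ∑ n ∈ Ioc (i * H) ((i + 1) * H), f n) (δ / 2 * H) fun i hi =>
        (not_le.1 (Finset.mem_filter.1 hi).2).le
    rw [nsmul_eq_mul] at h3
    refine h3.trans (mul_le_mul_of_nonneg_right ?_ (by positivity))
    have h4 : ((range J).filter (fun i =>
      ¬ δ / 2 * H ≤ ∑ n ∈ Ioc (i * H) ((i + 1) * H), f n)).card ≤ J := by
      have := Finset.card_filter_le (range J) (fun i =>
        ¬ δ / 2 * H ≤ ∑ n ∈ Ioc (i * H) ((i + 1) * H), f n)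
      rwa [Finset.card_range] at this
    exact_mod_cast h4
  have h5 : δ / 2 * J * H ≤ (((range J).filter fun i =>
      δ / 2 * H ≤ ∑ n ∈ Ioc (i * H) ((i + 1) * H), f n).card : ℝ) * H := by
    push_cast at h
    nlinarith
  exact le_of_mul_le_mul_right h5 hHp

/-- Positive lower density from a lower bound at the multiples of `K`. -/
theorem lpos_of_mult {C : Set ℕ} {K J₀ : ℕ} (hK : 1 ≤ K) {c : ℝ} (hc : 0 < c)
    (h : ∀ J : ℕ, J₀ ≤ J → c * J ≤ cnt C (K * J)) : LPos C := by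
  have hK' : (0 : ℝ) < K := by exact_mod_cast hK
  refine ⟨c / (2 * K), by positivity, K * (J₀ + 1), fun x hx => ?_⟩
  have h1 : J₀ + 1 ≤ x / K := (Nat.le_div_iff_mul_le (by omega)).2 (by rw [mul_comm]; exact hx)
  have h2 := h (x / K) (by omega)
  have h3 : (cnt C (K * (x / K)) : ℝ) ≤ cnt C x := by
    exact_mod_cast cnt_mono subset_rfl (Nat.mul_div_le x K)
  have h4 : x < K * (x / K + 1) := Nat.lt_mul_div_succ x (by omega)
  have h5 : (x : ℝ) ≤ 2 * K * ((x / K : ℕ) : ℝ) := by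
    have h6 : x ≤ 2 * K * (x / K) := by nlinarith
    exact_mod_cast h6
  rw [div_mul_eq_mul_div, div_le_iff₀ (by positivity)]
  have h7 : c * x ≤ c * (2 * K * ((x / K : ℕ) : ℝ)) := mul_le_mul_of_nonneg_left h5 hc.le
  nlinarith

end Pool.Agent.H.MP_656320_nt.SC
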