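import Pool.Agent.H.MP_656320_nt.SC.Sb
import Pool.Agent.H.MP_656320_nt.VB.Vb
import Pool.Agent.H.MP_656320_nt.VB.Ex

/-!
# Both signs in the rich blocks
-/

namespace Pool.Agent.H.MP_656320_nt.SC

open Finset Pool.Agent.H.MP_656320_nt Pool.Agent.H.MP_656320_nt.VB

private theorem Sc_ch_le (r : Finset ℕ) (n : ℕ) : |ch r n| ≤ 1 := by
  unfold ch
  rw [Finset.abs_prod]
  refine Finset.prod_le_one (fun _ _ => abs_nonneg _) fun p _ => ?_
  rcases jacobiSym.trichotomy n p with h | h | h <;> rw [h] <;> norm_num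

private theorem Sc_ch_sq {r Q : Finset ℕ} (hr : r ⊆ Q) {n : ℕ} (hn : n.Coprime (∏ p ∈ Q, p)) :
    ch r n ^ 2 = 1 := by
  unfold ch
  rw [← Finset.prod_pow]
  refine Finset.prod_eq_one fun p hp => ?_
  have h1 : n.Coprime p := Nat.Coprime.coprime_dvd_right (Finset.dvd_prod_of_mem _ (hr hp)) hn
  have h2 : jacobiSym n p ^ 2 = 1 := jacobiSym.sq_one (by
    rw [Int.gcd_natCast_natCast]
    exact h1)
  exact_mod_cast h2

/-- A sum of values `0`, `1`, `-1` without two values of different signs. -/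
private theorem Sc_sum {I : Finset ℕ} {w : ℕ → ℝ} (h1 : ∀ n ∈ I, w n = 0 ∨ w n = 1 ∨ w n = -1)
    (h2 : ∀ u ∈ I, ∀ v ∈ I, ¬ (w u = 1 ∧ w v = -1)) :
    (∑ n ∈ I, w n) ^ 2 = (∑ n ∈ I, w n ^ 2) ^ 2 := by
  by_cases h3 : ∃ u ∈ I, w u = 1
  · obtain ⟨u, hu, hu1⟩ := h3
    have h4 : ∀ n ∈ I, w n = w n ^ 2 := by
      intro n hn
      rcases h1 n hn with h5 | h5 | h5
      · rw [h5]
        norm_num
      · rw [h5]
        norm_num
      · exact absurd ⟨hu1, h5⟩ (h2 u hu n hn)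
    rw [Finset.sum_congr rfl h4]
  · have h4 : ∀ n ∈ I, w n = - w n ^ 2 := by
      intro n hn
      rcases h1 n hn with h5 | h5 | h5
      · rw [h5]
        norm_num
      · exact absurd ⟨n, hn, h5⟩ h3
      · rw [h5]
        norm_num
    rw [Finset.sum_congr rfl h4, Finset.sum_neg_distrib, neg_sq]

private theorem Sc_sg (x : ℝ) : sg x = 0 ∨ sg x = 1 ∨ sg x = -1 := by
  rcases lt_trichotomy x 0 with hx | hx | hx
  · exact Or.inr (Or.inr (sg_neg hx))
  · rw [hx]
    exact Or.inl sg_zero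
  · exact Or.inr (Or.inl (sg_pos hx))

private theorem Sc_pos {x : ℝ} (h : sg x = 1) : 0 < x := by
  rcases lt_trichotomy x 0 with hx | hx | hx
  · rw [sg_neg hx] at h
    norm_num at h
  · rw [hx, sg_zero] at h
    norm_num at h
  · exact hx

private theorem Sc_neg {x : ℝ} (h : sg x = -1) : x < 0 := by
  rcases lt_trichotomy x 0 with hx | hx | hx
  · exact hx
  · rw [hx, sg_zero] at h
    norm_num at h
  · rw [sg_pos hx] at h
    norm_num at h

theorem both {a : ℕ → ℝ} {Q : Finset ℕ} {e : ℕ → ℕ} (hQ : ∀ p ∈ Q, p.Prime ∧ p ≠ 2)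
    (hf : ∀ p ∈ Q, Fl a p (e p)) {δ : ℝ} (hδ : 0 < δ) (hk : 8 / δ < 2 ^ Q.card) {H : ℕ}
    (hH : 2 ^ Q.card * (2 * ∏ p ∈ Q, p) ≤ H) (i : ℕ)
    (hr : δ / 4 * H ≤ ∑ n ∈ Ioc (i * H) ((i + 1) * H),
      (if n.Coprime (∏ p ∈ Q, p) then sg (a n) ^ 2 else 0)) :
    ∃ r ∈ Q.powerset, ∃ u v : ℕ, i * H < u ∧ u < v ∧ v ≤ (i + 1) * H ∧
      a ((∏ p ∈ r, p ^ e p) ^ 2 * u) * a ((∏ p ∈ r, p ^ e p) ^ 2 * v) < 0 := by
  classical
  by_contra hcon
  obtain ⟨q, hq⟩ : ∃ q : ℕ, q = ∏ p ∈ Q, p := ⟨_, rfl⟩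
  rw [← hq] at hH hr
  have hq1 : 1 ≤ q := by
    rw [hq]
    exact Finset.prod_pos fun p hp => (hQ p hp).1.pos
  have hH1 : 1 ≤ H := le_trans (Nat.mul_pos (by positivity) (by omega)) hH
  obtain ⟨I, hI⟩ : ∃ I : Finset ℕ, I = Ioc (i * H) ((i + 1) * H) := ⟨_, rfl⟩
  rw [← hI] at hr
  obtain ⟨s, hs⟩ : ∃ s : ℕ → ℝ, s = fun n => if n.Coprime q then sg (a n) else 0 := ⟨_, rfl⟩
  obtain ⟨v, hv⟩ : ∃ v : Finset ℕ → ℕ → ℝ, v = fun r n =>
    if n.Coprime q then ch r n else 0 := ⟨_, rfl⟩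
  obtain ⟨S, hS⟩ : ∃ S : ℝ, S = ∑ n ∈ I, s n ^ 2 := ⟨_, rfl⟩
  have hSr : S = ∑ n ∈ I, (if n.Coprime q then sg (a n) ^ 2 else 0) := by
    rw [hS]
    refine Finset.sum_congr rfl fun n _ => ?_
    rw [hs]
    dsimp only
    split_ifs
    · rfl
    · norm_num
  rw [← hSr] at hr
  have hS0 : 0 < S := lt_of_lt_of_le (by positivity) hr
  have hcard : I.card = H := by
    rw [hI, Nat.card_Ioc, Nat.add_mul, Nat.one_mul]
    omega
  -- every sum is extreme
  have hext : ∀ r ∈ Q.powerset, (∑ n ∈ I, s n * v r n) ^ 2 = S ^ 2 := by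
    intro r hr0
    have hr1 := Finset.mem_powerset.1 hr0
    obtain ⟨κ, hκ, hlaw⟩ := fl_prod (a := a) (r := r) (e := e) (fun p hp => (hQ p (hr1 hp)).1)
      (fun p hp => hf p (hr1 hp))
    have hκ2 : κ ^ 2 = 1 := by
      rcases hκ with h | h <;> rw [h] <;> norm_num
    obtain ⟨w, hw⟩ : ∃ w : ℕ → ℝ, w = fun n =>
      if n.Coprime q then sg (a ((∏ p ∈ r, p ^ e p) ^ 2 * n)) else 0 := ⟨_, rfl⟩
    have hws : ∀ n ∈ I, w n = κ * (s n * v r n) := by
      intro n hn
      rw [hI] at hn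
      have hn1 := (Finset.mem_Ioc.1 hn).1
      rw [hw, hs, hv]
      dsimp only
      by_cases h1 : n.Coprime q
      · rw [if_pos h1, if_pos h1, if_pos h1, hlaw n (by omega)]
        · ring
        · intro p hp h2
          have h3 : p ∣ q := by
            rw [hq]
            exact Finset.dvd_prod_of_mem _ (hr1 hp)
          exact (hQ p (hr1 hp)).1.one_lt.ne' (Nat.eq_one_of_dvd_coprimes h1 h2 h3)
      · rw [if_neg h1, if_neg h1, if_neg h1]
        ring
    have hw2 : ∀ n ∈ I, w n ^ 2 = s n ^ 2 := by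
      intro n hn
      rw [hws n hn, mul_pow, mul_pow, hκ2, one_mul, hs, hv]
      dsimp only
      by_cases h1 : n.Coprime q
      · rw [if_pos h1, if_pos h1, Sc_ch_sq hr1 (hq ▸ h1), mul_one]
      · rw [if_neg h1, if_neg h1]
        norm_num
    have h1 := Sc_sum (I := I) (w := w)
      (fun n _ => by
        rw [hw]
        dsimp only
        split_ifs
        · exact Sc_sg _
        · exact Or.inl rfl)
      (fun u hu u' hu' h2 => by
        rw [hI] at hu hu'
        have h3 := Finset.mem_Ioc.1 hu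
        have h4 := Finset.mem_Ioc.1 hu'
        rw [hw] at h2
        dsimp only at h2
        obtain ⟨h5, h6⟩ := h2
        have h7 : 0 < a ((∏ p ∈ r, p ^ e p) ^ 2 * u) := by
          by_cases h8 : u.Coprime q
          · rw [if_pos h8] at h5
            exact Sc_pos h5
          · rw [if_neg h8] at h5
            norm_num at h5
        have h9 : a ((∏ p ∈ r, p ^ e p) ^ 2 * u') < 0 := by
          by_cases h8 : u'.Coprime q
          · rw [if_pos h8] at h6
            exact Sc_neg h6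
          · rw [if_neg h8] at h6
            norm_num at h6
        rcases lt_trichotomy u u' with h10 | h10 | h10
        · exact hcon ⟨r, hr0, u, u', h3.1, h10, h4.2, mul_neg_of_pos_of_neg h7 h9⟩
        · rw [h10] at h7
          exact absurd h7 h9.not_gt
        · exact hcon ⟨r, hr0, u', u, h4.1, h10, h3.2, mul_neg_of_neg_of_pos h9 h7⟩)
    rw [Finset.sum_congr rfl hw2, Finset.sum_congr rfl hws, ← Finset.mul_sum, mul_pow, hκ2,
      one_mul, ← hS] at h1
    exact h1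
  have hB := bessel Q.powerset I v s (D := H) (C := 2 * q) (Nat.cast_nonneg _) (by positivity)
    (by
      intro r _
      have h1 : ∀ n ∈ I, v r n ^ 2 ≤ 1 := by
        intro n _
        rw [hv]
        dsimp only
        split_ifs
        · have h2 := Sc_ch_le r n
          rw [abs_le] at h2
          nlinarith
        · norm_num
      refine (Finset.sum_le_sum h1).trans ?_
      rw [Finset.sum_const, hcard, nsmul_eq_mul, mul_one])
    (by
      intro r hr0 r' hr0' hne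
      have h1 := orth hQ (Finset.mem_powerset.1 hr0) (Finset.mem_powerset.1 hr0') hne (i * H)
      have h2 := orth hQ (Finset.mem_powerset.1 hr0) (Finset.mem_powerset.1 hr0') hne
        ((i + 1) * H)
      rw [← hq] at h1 h2
      have h3 : ∑ n ∈ I, v r n * v r' n =
          ∑ n ∈ I, (if n.Coprime q then ch r n * ch r' n else 0) := by
        refine Finset.sum_congr rfl fun n _ => ?_
        rw [hv]
        dsimp only
        split_ifs
        · rfl
        · norm_num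
      have h4 := Finset.sum_Ioc_consecutive
        (fun n => if n.Coprime q then ch r n * ch r' n else 0) (Nat.zero_le (i * H))
        (Nat.mul_le_mul_right H (Nat.le_succ i))
      rw [h3, hI]
      rw [abs_le] at h1 h2 ⊢
      constructor <;> linarith [h1.1, h1.2, h2.1, h2.2])
  rw [Finset.sum_congr rfl hext, Finset.sum_const, Finset.card_powerset, nsmul_eq_mul, ← hS]
    at hB
  have h1 : (H : ℝ) + ((2 ^ Q.card : ℕ) : ℝ) * (2 * q) ≤ 2 * H := by
    have h2 : ((2 ^ Q.card * (2 * q) : ℕ) : ℝ) ≤ H := by exact_mod_cast hH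
    push_cast at h2 ⊢
    linarith
  have h2 : ((2 ^ Q.card : ℕ) : ℝ) * S ^ 2 ≤ S * (2 * H) :=
    hB.trans (mul_le_mul_of_nonneg_left h1 hS0.le)
  have h3 : ((2 ^ Q.card : ℕ) : ℝ) * S ≤ 2 * H := by
    have h4 : (((2 ^ Q.card : ℕ) : ℝ) * S) * S ≤ (2 * H) * S := by nlinarith
    exact le_of_mul_le_mul_right h4 hS0
  have hH0 : (0 : ℝ) < H := by exact_mod_cast hH1
  have h5 : (2 : ℝ) ^ Q.card * (δ / 4 * H) ≤ 2 * H := by
    refine le_trans (mul_le_mul_of_nonneg_left hr (by positivity)) ?_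
    push_cast at h3
    exact h3
  rw [div_lt_iff₀ hδ] at hk
  nlinarith

end Pool.Agent.H.MP_656320_nt.SC
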