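import Pool.Agent.H.MP_656320_nt.SC.Sc

/-!
# A positive proportion of sign changes
-/

namespace Pool.Agent.H.MP_656320_nt.SC

open Finset Pool.Agent.H.MP_656320_nt Pool.Agent.H.MP_656320_nt.VB

private theorem Sd_point {a : ℕ → ℝ} {Q : Finset ℕ} (hQ : ∀ p ∈ Q, p.Prime) (n : ℕ) :
    sg (a n) ^ 2 ≤ (if n.Coprime (∏ p ∈ Q, p) then sg (a n) ^ 2 else 0) +
      ∑ p ∈ Q, (if p ∣ n then (1 : ℝ) else 0) := by
  have h0 : ∀ p ∈ Q, (0 : ℝ) ≤ (if p ∣ n then (1 : ℝ) else 0) := by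
    intro p _
    split_ifs
    · exact zero_le_one
    · exact le_rfl
  by_cases hc : n.Coprime (∏ p ∈ Q, p)
  · rw [if_pos hc]
    exact le_add_of_nonneg_right (Finset.sum_nonneg h0)
  · rw [if_neg hc, zero_add]
    have h1 : ∃ p ∈ Q, p ∣ n := by
      by_contra hcon
      push Not at hcon
      refine hc (Nat.Coprime.prod_right fun p hp => ?_)
      exact ((Nat.Prime.coprime_iff_not_dvd (hQ p hp)).mpr (hcon p hp)).symm
    obtain ⟨p, hp, hpn⟩ := h1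
    have h2 : (if p ∣ n then (1 : ℝ) else 0) ≤ ∑ p ∈ Q, (if p ∣ n then (1 : ℝ) else 0) :=
      Finset.single_le_sum h0 hp
    rw [if_pos hpn] at h2
    refine le_trans ?_ h2
    rw [sg_sq]
    split_ifs
    · exact zero_le_one
    · exact le_rfl

private theorem Sd_cop {a : ℕ → ℝ} {δ : ℝ} {x : ℕ} (h4 : δ * x ≤ cnt {n | a n ≠ 0} x)
    {Q : Finset ℕ} (hQ : ∀ p ∈ Q, p.Prime) (hs : ∑ p ∈ Q, (1 : ℝ) / p ≤ δ / 2) :
    δ / 2 * x ≤ ∑ n ∈ Ioc 0 x, (if n.Coprime (∏ p ∈ Q, p) then sg (a n) ^ 2 else 0) := by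
  have h1 : (cnt {n | a n ≠ 0} x : ℝ) = ∑ n ∈ Ioc 0 x, sg (a n) ^ 2 := by
    have h2 := (cnt_sg Set.univ a x).2
    have h3 : {n : ℕ | n ∈ (Set.univ : Set ℕ) ∧ a n ≠ 0} = {n | a n ≠ 0} := by
      ext n
      simp
    rw [h3] at h2
    rw [h2]
    refine Finset.sum_congr rfl fun n _ => ?_
    rw [if_pos (Set.mem_univ n)]
  rw [h1] at h4
  have h5 : ∑ n ∈ Ioc 0 x, sg (a n) ^ 2 ≤
      ∑ n ∈ Ioc 0 x, (if n.Coprime (∏ p ∈ Q, p) then sg (a n) ^ 2 else 0) +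
        ∑ n ∈ Ioc 0 x, ∑ p ∈ Q, (if p ∣ n then (1 : ℝ) else 0) := by
    rw [← Finset.sum_add_distrib]
    exact Finset.sum_le_sum fun n _ => Sd_point hQ n
  have h6 : ∑ n ∈ Ioc 0 x, ∑ p ∈ Q, (if p ∣ n then (1 : ℝ) else 0) ≤
      ∑ p ∈ Q, (x : ℝ) * ((1 : ℝ) / p) := by
    rw [Finset.sum_comm]
    refine Finset.sum_le_sum fun p _ => ?_
    rw [Finset.sum_boole, Nat.Ioc_filter_dvd_card_eq_div, mul_one_div]
    exact Nat.cast_div_le
  rw [← Finset.mul_sum] at h6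
  have h7 : (x : ℝ) * ∑ p ∈ Q, (1 : ℝ) / p ≤ x * (δ / 2) :=
    mul_le_mul_of_nonneg_left hs (Nat.cast_nonneg x)
  linarith

theorem core {l N : ℕ} {χ lam : ℕ → ℂ} {a : ℕ → ℝ} (h : Hecke l N χ lam a)
    (hI : {p | Good l N χ lam p}.Infinite) {δ : ℝ} (hδ : 0 < δ) :
    ∃ (H K : ℕ) (c : ℝ), 1 ≤ H ∧ 1 ≤ K ∧ 0 < c ∧ ∀ J : ℕ,
      δ * ((H * J : ℕ) : ℝ) ≤ cnt {n | a n ≠ 0} (H * J) → c * J ≤ cnt (Chg a) (K * J) := by
  classical
  obtain ⟨E, -, hE⟩ := exists_exponents l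
  have hfl := fun p (hp : Good l N χ lam p) => hE N χ lam a h p hp
  obtain ⟨k, hk⟩ := pow_unbounded_of_one_lt (8 / δ) (one_lt_two : (1 : ℝ) < 2)
  have hI' : ({p | Good l N χ lam p} \ Set.Iic ⌈2 * ((k : ℝ) + 1) / δ⌉₊).Infinite :=
    hI.sdiff (Set.finite_Iic _)
  obtain ⟨Q, hQs, hQc⟩ := hI'.exists_subset_card_eq k
  have hQp : ∀ p ∈ Q, Good l N χ lam p := fun p hp => (hQs hp).1
  have hQg : ∀ p ∈ Q, 2 * ((k : ℝ) + 1) / δ ≤ p := by
    intro p hp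
    have h1 := (hQs hp).2
    rw [Set.mem_Iic, not_le] at h1
    refine (Nat.le_ceil _).trans ?_
    exact_mod_cast h1.le
  have h2N : 2 ∣ N := (by norm_num : 2 ∣ 4).trans h.four
  have hQ : ∀ p ∈ Q, p.Prime ∧ p ≠ 2 := fun p hp =>
    ⟨(hQp p hp).1, fun h1 => (hQp p hp).2.1 (h1 ▸ h2N)⟩
  have hsum : ∑ p ∈ Q, (1 : ℝ) / p ≤ δ / 2 := by
    have h3 : ∀ p ∈ Q, (1 : ℝ) / p ≤ δ / (2 * ((k : ℝ) + 1)) := by
      intro p hp
      have h4 := hQg p hp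
      have h5 : (0 : ℝ) < p := by exact_mod_cast (hQp p hp).1.pos
      rw [div_le_iff₀ hδ] at h4
      rw [div_le_div_iff₀ h5 (by positivity)]
      linarith
    refine (Finset.sum_le_sum h3).trans ?_
    rw [Finset.sum_const, hQc, nsmul_eq_mul, ← mul_div_assoc,
      div_le_div_iff₀ (by positivity) (by norm_num)]
    have h6 : (0 : ℝ) ≤ k := Nat.cast_nonneg k
    nlinarith
  obtain ⟨q, hq⟩ : ∃ q : ℕ, q = ∏ p ∈ Q, p := ⟨_, rfl⟩
  have hq1 : 1 ≤ q := by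
    rw [hq]
    exact Finset.prod_pos fun p hp => (hQ p hp).1.pos
  obtain ⟨H, hH⟩ : ∃ H : ℕ, H = 2 ^ k * (2 * q) := ⟨_, rfl⟩
  have hH1 : 1 ≤ H := by
    rw [hH]
    exact Nat.mul_pos (by positivity) (by omega)
  obtain ⟨m, hm⟩ : ∃ m : Finset ℕ → ℕ, m = fun r => ∏ p ∈ r, p ^ E p (lam p) := ⟨_, rfl⟩
  have hm1 : ∀ r ∈ Q.powerset, 1 ≤ m r := by
    intro r hr
    rw [hm]
    exact Finset.prod_pos fun p hp => pow_pos (hQ p (Finset.mem_powerset.1 hr hp)).1.pos _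
  obtain ⟨M, hM⟩ : ∃ M : ℕ, ∀ r ∈ Q.powerset, m r ≤ M :=
    ⟨∑ r ∈ Q.powerset, m r, fun r hr =>
      Finset.single_le_sum (f := fun r => m r) (fun _ _ => Nat.zero_le _) hr⟩
  have hM1 : 1 ≤ M := (hm1 ∅ (Finset.empty_mem_powerset Q)).trans
    (hM ∅ (Finset.empty_mem_powerset Q))
  refine ⟨H, M ^ 2 * H, δ / 4 / 2 ^ k, hH1, Nat.mul_pos (by positivity) hH1, by positivity,
    fun J hJ => ?_⟩
  have hlow := Sd_cop hJ (fun p hp => (hQ p hp).1) hsum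
  have h1 := rich (f := fun n => if n.Coprime (∏ p ∈ Q, p) then sg (a n) ^ 2 else 0)
    (fun n => by
      split_ifs
      · rw [sg_sq]
        split_ifs <;> norm_num
      · norm_num) (δ := δ / 2) (H := H) (J := J) hH1 hlow
  have h2 := count_blocks Q.powerset (m := m) (M := M) hH1 (fun r hr => ⟨hm1 r hr, hM r hr⟩)
    (Chg a) ((range J).filter fun i => δ / 2 / 2 * H ≤ ∑ n ∈ Ioc (i * H) ((i + 1) * H),
      (if n.Coprime (∏ p ∈ Q, p) then sg (a n) ^ 2 else 0)) (J := J)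
    (fun i hi => Finset.mem_range.1 (Finset.mem_filter.1 hi).1)
    (fun i hi => by
      have h3 := (Finset.mem_filter.1 hi).2
      obtain ⟨r, hr, u, v, hu, huv, hv, hneg⟩ := both (a := a) (e := fun p => E p (lam p)) hQ
        (fun p hp => hfl p (hQp p hp)) hδ (by rw [hQc]; exact hk) (H := H)
        (by rw [hQc, ← hq, hH]) i (by
          refine le_trans (le_of_eq ?_) h3
          ring)
      have hmr := hm1 r hr
      have hmr2 : 1 ≤ m r ^ 2 := Nat.one_le_pow _ _ hmr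
      have hu1 : 1 ≤ u := by omega
      obtain ⟨n, hn, hn1, hn2⟩ := exists_chg (a := a) (u := m r ^ 2 * u) (v := m r ^ 2 * v)
        (Nat.mul_pos hmr2 hu1) (Nat.mul_lt_mul_of_pos_left huv hmr2) (by
          rw [hm]
          exact hneg)
      refine ⟨r, hr, n, hn, ?_, ?_⟩
      · exact lt_trans (Nat.mul_lt_mul_of_pos_left hu hmr2) hn1
      · exact hn2.trans (Nat.mul_le_mul_left _ hv))
  rw [Finset.card_powerset, hQc] at h2
  have h3 : δ / 2 / 2 * (J : ℝ) ≤ ((2 ^ k * cnt (Chg a) (M ^ 2 * (H * J)) : ℕ) : ℝ) :=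
    h1.trans (by exact_mod_cast h2)
  push_cast at h3
  rw [Nat.mul_assoc, div_mul_eq_mul_div, div_le_iff₀ (by positivity)]
  linarith

theorem lpos {l N : ℕ} {χ lam : ℕ → ℂ} {a : ℕ → ℝ} (h : Hecke l N χ lam a)
    (hI : {p | Good l N χ lam p}.Infinite) (hne : LPos {n | a n ≠ 0}) : LPos (Chg a) := by
  obtain ⟨δ, hδ, X, hX⟩ := hne
  obtain ⟨H, K, c, hH, hK, hc, h1⟩ := core h hI hδ
  exact lpos_of_mult hK hc (J₀ := X) fun J hJ =>
    h1 J (hX (H * J) (hJ.trans (Nat.le_mul_of_pos_left J hH)))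

private theorem Sd_cnt (A : Set ℕ) {x y : ℕ} (hxy : y ≤ x) : cnt A x ≤ cnt A y + (x - y) := by
  unfold cnt
  have h1 : {n : ℕ | 1 ≤ n ∧ n ≤ x ∧ n ∈ A} ⊆
      {n : ℕ | 1 ≤ n ∧ n ≤ y ∧ n ∈ A} ∪ ((Ioc y x : Finset ℕ) : Set ℕ) := by
    rintro n ⟨h2, h3, h4⟩
    rcases Nat.lt_or_ge y n with h5 | h5
    · exact Or.inr (by
        rw [Finset.mem_coe, Finset.mem_Ioc]
        exact ⟨h5, h3⟩)
    · exact Or.inl ⟨h2, h5, h4⟩
  refine (Set.ncard_le_ncard h1 ((cnt_fin A y).union (Finset.finite_toSet _))).trans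
    ((Set.ncard_union_le _ _).trans ?_)
  rw [Set.ncard_coe_finset, Nat.card_Ioc]

theorem upos {l N : ℕ} {χ lam : ℕ → ℂ} {a : ℕ → ℝ} (h : Hecke l N χ lam a)
    (hI : {p | Good l N χ lam p}.Infinite) (hne : UPos {n | a n ≠ 0}) : UPos (Chg a) := by
  obtain ⟨δ, hδ, hX⟩ := hne
  obtain ⟨H, K, c, hH, hK, hc, h1⟩ := core h hI (half_pos hδ)
  have hK0 : (0 : ℝ) < K := by exact_mod_cast hK
  have hH0 : (0 : ℝ) < H := by exact_mod_cast hH
  refine ⟨c / K, by positivity, fun X => ?_⟩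
  obtain ⟨x, hx, hx2⟩ := hX (H * (X + 1) + ⌈2 * (H : ℝ) / δ⌉₊)
  have h2 : X ≤ x / H := by
    have h3 : X + 1 ≤ x / H := by
      rw [Nat.le_div_iff_mul_le hH, Nat.mul_comm]
      omega
    omega
  have h3 : H * (x / H) ≤ x := Nat.mul_div_le x H
  have h4 : x - H * (x / H) ≤ H := by
    have h5 := Nat.div_add_mod x H
    have h6 := Nat.mod_lt x hH
    omega
  have h5 := Sd_cnt {n | a n ≠ 0} h3
  have h6 : (cnt {n | a n ≠ 0} x : ℝ) ≤ cnt {n | a n ≠ 0} (H * (x / H)) + H := by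
    exact_mod_cast h5.trans (Nat.add_le_add_left h4 _)
  have h7 : 2 * (H : ℝ) / δ ≤ x := by
    refine (Nat.le_ceil _).trans ?_
    exact_mod_cast (Nat.le_add_left _ _).trans hx
  have h8 : ((H * (x / H) : ℕ) : ℝ) ≤ x := by exact_mod_cast h3
  rw [div_le_iff₀ hδ] at h7
  have h9 : δ / 2 * ((H * (x / H) : ℕ) : ℝ) ≤ cnt {n | a n ≠ 0} (H * (x / H)) := by
    have h10 : δ / 2 * ((H * (x / H) : ℕ) : ℝ) ≤ δ / 2 * x :=
      mul_le_mul_of_nonneg_left h8 (by positivity)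
    linarith
  refine ⟨K * (x / H), h2.trans (Nat.le_mul_of_pos_left _ hK), ?_⟩
  refine le_trans (le_of_eq ?_) (h1 (x / H) h9)
  push_cast
  field_simp

/-- The positions of the sign changes of `a` along `B`: `n ∈ B`, and `a n` and the last nonzero value of
`a` at an element of `B` before it have different signs. -/
def ChgOn (B : Set ℕ) (a : ℕ → ℝ) : Set ℕ :=
  {n | n ∈ B ∧ ∃ m ∈ B, 1 ≤ m ∧ m < n ∧ a m * a n < 0 ∧ ∀ j ∈ B, m < j → j < n → a j = 0}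

theorem chg_ind (B : Set ℕ) (a : ℕ → ℝ) : Chg (Set.indicator B a) = ChgOn B a := by
  ext n
  constructor
  · rintro ⟨m, h1, h2, h3, h4⟩
    have hn : n ∈ B := by
      by_contra h5
      rw [Set.indicator_of_notMem h5, mul_zero] at h3
      exact lt_irrefl _ h3
    have hm : m ∈ B := by
      by_contra h5
      rw [Set.indicator_of_notMem h5, zero_mul] at h3
      exact lt_irrefl _ h3
    rw [Set.indicator_of_mem hn, Set.indicator_of_mem hm] at h3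
    refine ⟨hn, m, hm, h1, h2, h3, fun j hj h5 h6 => ?_⟩
    have h7 := h4 j h5 h6
    rwa [Set.indicator_of_mem hj] at h7
  · rintro ⟨hn, m, hm, h1, h2, h3, h4⟩
    refine ⟨m, h1, h2, ?_, fun j h5 h6 => ?_⟩
    · rw [Set.indicator_of_mem hn, Set.indicator_of_mem hm]
      exact h3
    · by_cases h7 : j ∈ B
      · rw [Set.indicator_of_mem h7]
        exact h4 j h7 h5 h6
      · exact Set.indicator_of_notMem h7 a

private theorem Sd_hecke {l N : ℕ} {χ lam : ℕ → ℂ} {a : ℕ → ℝ} (h : Hecke l N χ lam a) {q : ℕ}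
    {A : Set ℕ} (hA : ∀ u n : ℕ, 1 ≤ u → u.Coprime q → (u ^ 2 * n ∈ A ↔ n ∈ A)) :
    Hecke l (N * q) χ lam (Set.indicator A a) := by
  refine ⟨h.four.mul_right q, fun p hp hpN n hn => ?_⟩
  have h1 : ¬ p ∣ N := fun h2 => hpN (h2.mul_right q)
  have h2 : p.Coprime q := (Nat.Prime.coprime_iff_not_dvd hp).2 fun h3 => hpN (h3.mul_left N)
  have h3 := h.rel p hp h1 n hn
  have h4 : p ^ 2 * n ∈ A ↔ n ∈ A := hA p n hp.one_lt.le h2
  have h5 : p ^ 2 ∣ n → (n / p ^ 2 ∈ A ↔ n ∈ A) := by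
    rintro ⟨k, rfl⟩
    rw [Nat.mul_div_cancel_left _ (pow_pos hp.pos 2)]
    exact (hA p k hp.one_lt.le h2).symm
  by_cases h6 : n ∈ A
  · rw [Set.indicator_of_mem h6, Set.indicator_of_mem (h4.2 h6)]
    by_cases h7 : p ^ 2 ∣ n
    · rw [if_pos h7, Set.indicator_of_mem ((h5 h7).2 h6)]
      rw [if_pos h7] at h3
      exact h3
    · rw [if_neg h7]
      rw [if_neg h7] at h3
      exact h3
  · rw [Set.indicator_of_notMem h6, Set.indicator_of_notMem (fun h7 => h6 (h4.1 h7))]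
    by_cases h7 : p ^ 2 ∣ n
    · rw [if_pos h7, Set.indicator_of_notMem (fun h8 => h6 ((h5 h7).1 h8))]
      simp
    · rw [if_neg h7]
      simp

/-- A positive proportion of sign changes. -/
theorem changes {l N : ℕ} {χ lam : ℕ → ℂ} {a : ℕ → ℝ} (h : Hecke l N χ lam a)
    (hI : {p | Good l N χ lam p}.Infinite) {d : ℕ} (hd : 1 ≤ d) {B : Set ℕ}
    (hB : ∀ u n : ℕ, 1 ≤ u → u.Coprime d → (u ^ 2 * n ∈ B ↔ n ∈ B)) :
    (LPos (ChgOn B a) ↔ LPos {n | n ∈ B ∧ a n ≠ 0}) ∧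
      (UPos (ChgOn B a) ↔ UPos {n | n ∈ B ∧ a n ≠ 0}) := by
  have h1 : ChgOn B a ⊆ {n | n ∈ B ∧ a n ≠ 0} := by
    rintro n ⟨hn, m, -, -, -, h2, -⟩
    refine ⟨hn, fun h3 => ?_⟩
    rw [h3, mul_zero] at h2
    exact lt_irrefl _ h2
  have h2 : {n | n ∈ B ∧ a n ≠ 0} = {n | Set.indicator B a n ≠ 0} := by
    ext n
    by_cases hn : n ∈ B
    · simp [hn]
    · simp [hn]
  have h3 := Sd_hecke h hB
  have h4 : {p | Good l (N * d) χ lam p}.Infinite := by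
    refine (hI.sdiff (Set.finite_Iic d)).mono ?_
    rintro p ⟨⟨hp1, hp2, hp3, hp4⟩, hpd⟩
    rw [Set.mem_Iic, not_le] at hpd
    refine ⟨hp1, fun h5 => ?_, hp3, hp4⟩
    rcases (hp1.dvd_mul).1 h5 with h6 | h6
    · exact hp2 h6
    · exact absurd (Nat.le_of_dvd hd h6) (by omega)
  refine ⟨⟨LPos.mono h1, fun h5 => ?_⟩, ⟨UPos.mono h1, fun h5 => ?_⟩⟩
  · rw [h2] at h5
    rw [← chg_ind]
    exact lpos h3 h4 h5
  · rw [h2] at h5
    rw [← chg_ind]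
    exact upos h3 h4 h5

end Pool.Agent.H.MP_656320_nt.SC
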